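import Pool.Agent.Work.MP_a2fb93_lf.Col
import Pool.Agent.Work.MP_a2fb93_lf.Grow
set_option autoImplicit false

/-!
Every loopless triangulation T of a closed orientable surface has a refinement whose dual is 3-edge-colourable and
whose face-width is at least 3/2 times that of T (rounded down): put a new vertex into each face of T, join it to the
three corners of this face and to the new vertices of the three neighbouring faces, and remove the edges of T.
Nothing is assumed about the dual of T itself, and there is no exception.
-/

theorem Pool.Agent.Results.MP_a2fb93_co.DualRefinement.result
    (D : Type) [Finite D] (T : ESub.Triangulation D) (hT : T.Loopless) :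
    T.refine.Loopless ∧
      (∀ n m, T.FaceWidthAtLeast n → 2 * m ≤ 3 * n → T.refine.FaceWidthAtLeast m) ∧
      T.refine.DualThreeEdgeColourable :=
  ⟨ESub.refine_loopless T hT, fun n m h hm => ESub.refine_grow T hT n m h hm, ESub.refine_colourable T hT⟩
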