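import Pool.Agent.Work.MP_a2fb93_sub.Three
import Pool.Agent.Work.MP_a2fb93_sub.Curve
set_option autoImplicit false

/-!
A family of loopless triangulations of unbounded face-width with 3-edge-colourable duals, on every
orientable surface: for a loopless triangulation T of a closed orientable surface and every m at least 3
other than 4, the m-fold edgewise subdivision of T (each face is cut into m ^ 2 faces by the lines
parallel to its sides through the points that cut the sides into m equal parts) is a loopless
triangulation, its face-width is at least m, and its dual is 3-edge-colourable.
Nothing is assumed about the dual of T itself.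
-/

theorem Pool.Agent.Results.MP_a2fb93_co.EdgewiseSubdivision.result
    (D : Type) [Finite D] (T : ESub.Triangulation D) (hT : T.Loopless)
    (m : ℕ) (hm : 3 ≤ m) (hm4 : m ≠ 4) :
    (T.subdivide m).Loopless ∧ (T.subdivide m).FaceWidthAtLeast m ∧
      (T.subdivide m).DualThreeEdgeColourable :=
  ⟨ESub.loopless_subdivide T hT m, ESub.faceWidth_subdivide T hT m,
    ESub.main_colourable T hT m hm hm4⟩
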