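import Pool.Agent.Work.MP_a2fb93_df.All
set_option autoImplicit false

/-!
Triangulations of closed connected orientable surfaces of genus at most g whose defects (odd vertices,
and a fourth colour where they need it) lie in far apart balls of radius k + 1: if the face-width is at
least K (k + 1 + log_2 (g + 1)), K an absolute constant, then the dual is 3-edge-colourable.
-/

theorem Pool.Agent.Results.MP_a2fb93_co.SparseDefects.result :
    ∃ K : ℕ, ∀ (D : Type) [Finite D] (T : ESub.Triangulation D) (S : Set T.Vertex) (k : ℕ)
      (f : T.Vertex → Fin 4), ESub.Tame T S k f →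
      (∀ s ∈ S, ∀ t ∈ S, T.Near (K * (k + 1)) s t → s = t) → T.Connected →
      ∀ g : ℕ, T.GenusAtMost g → T.FaceWidthAtLeast (K * (k + 1 + Nat.log 2 (g + 1))) →
        T.DualThreeEdgeColourable :=
  ESub.defects_genus
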