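import Pool.Agent.Work.MP_a2fb93_df.All
set_option autoImplicit false

/-!
Triangulations of closed orientable surfaces of any genus whose defects lie in far apart balls of
radius k + 1, with face-width at least r ≥ K (k + 1), which have a set N of vertices, locally not too
large, such that closed walks off N are contractible: their duals are 3-edge-colourable.
-/

theorem Pool.Agent.Results.MP_a2fb93_co.SparseDefectsTransversal.result :
    ∃ K : ℕ, 0 < K ∧ ∀ (D : Type) [Finite D] (T : ESub.Triangulation D) (S : Set T.Vertex)
      (k : ℕ) (f : T.Vertex → Fin 4), ESub.Tame T S k f →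
      (∀ s ∈ S, ∀ t ∈ S, T.Near (K * (k + 1)) s t → s = t) →
      ∀ (N : Set T.Vertex) (r : ℕ), K * (k + 1) ≤ r → T.FaceWidthAtLeast r →
        T.ContractibleOff N →
        (∀ v ∈ N, Nat.card {w : T.Vertex // w ∈ N ∧ T.Near r v w} ≤ 2 ^ (r / K)) →
        T.DualThreeEdgeColourable :=
  ESub.defects_set
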